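import Pool.Agent.MP_6a4325_al.H62.Base2

/-!
Row SERB: the basic constructions of series with cyclic or quasicyclic factors.
-/

set_option autoImplicit false

namespace Pool.Agent.MP_6a4325_al.H20

open Pool.Agent.MP_6a4325_al.H62

/-- a cyclic group embeds in the units of the complex numbers -/
theorem cyc_emb (Q : Type) [Group Q] (g : Q) (hg : ∀ x, x ∈ Subgroup.zpowers g) :
    ∃ ι : Q →* ℂˣ, Function.Injective ι := by
  have hu : ∃ u : ℂˣ, orderOf u = orderOf g := by
    rcases Nat.eq_zero_or_pos (orderOf g) with h0 | hpos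
    · refine ⟨Units.mk0 (2 : ℂ) two_ne_zero, ?_⟩
      rw [h0, orderOf_eq_zero_iff']
      intro n hn h
      have h1 := congrArg (fun u : ℂˣ => ‖(u : ℂ)‖) h
      simp only [Units.val_pow_eq_pow_val, Units.val_mk0, norm_pow, Complex.norm_ofNat,
        Units.val_one, norm_one] at h1
      have h2 : (1 : ℝ) < 2 ^ n := one_lt_pow₀ (by norm_num) hn.ne'
      linarith
    · have hp := Complex.isPrimitiveRoot_exp (orderOf g) hpos.ne'
      have hu := hp.isUnit_unit hpos.ne'
      exact ⟨_, hu.eq_orderOf.symm⟩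
  obtain ⟨u, hu⟩ := hu
  refine ⟨monoidHomOfForallMemZpowers hg (g' := u) (by rw [hu]), ?_⟩
  rw [injective_iff_map_eq_one]
  intro x hx
  obtain ⟨k, rfl⟩ := Subgroup.mem_zpowers_iff.mp (hg x)
  rw [map_zpow, monoidHomOfForallMemZpowers_apply_gen, ← orderOf_dvd_iff_zpow_eq_one, hu] at hx
  exact orderOf_dvd_iff_zpow_eq_one.mp hx

/-- pulling back one factor -/
theorem fac_pull {p : ℕ} {G A : Type} [Group G] [Group A] (K : Subgroup G) (π : K →* A)
    {X Y : Subgroup A} (h : Fac p X Y) :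
    Fac p ((X.comap π).map K.subtype) ((Y.comap π).map K.subtype) := by
  obtain ⟨hle, f, hker, hf⟩ := h
  refine ⟨Subgroup.map_mono (Subgroup.comap_mono hle), ?_⟩
  have hK : (Y.comap π).map K.subtype ≤ K := Subgroup.map_subtype_le _
  have hY : ∀ y : (Y.comap π).map K.subtype, π (Subgroup.inclusion hK y) ∈ Y := by
    rintro ⟨y, z, hz, rfl⟩
    exact hz
  let φ : (Y.comap π).map K.subtype →* Y := (π.comp (Subgroup.inclusion hK)).codRestrict Y hY
  refine ⟨f.comp φ, ?_, ?_⟩
  · ext y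
    have h1 : y ∈ (f.comp φ).ker ↔ φ y ∈ f.ker := by simp [MonoidHom.mem_ker]
    rw [h1, hker, Subgroup.mem_subgroupOf, Subgroup.mem_subgroupOf]
    constructor
    · intro hy
      exact ⟨Subgroup.inclusion hK y, hy, rfl⟩
    · rintro ⟨z, hz, hzy⟩
      have : Subgroup.inclusion hK y = z := Subtype.ext hzy.symm
      change π (Subgroup.inclusion hK y) ∈ X
      rw [this]
      exact hz
  · rcases hf with hf | hf
    · left
      have hle' : (f.comp φ).range ≤ f.range := by
        rintro _ ⟨y, rfl⟩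
        exact ⟨φ y, rfl⟩
      exact Subgroup.isCyclic_of_le hle'
    · right
      intro y
      exact hf (φ y)

/-- pulling back a series -/
theorem ser_pull {p : ℕ} {G A : Type} [Group G] [Group A] (K : Subgroup G) (π : K →* A)
    {X Y : Subgroup A} (h : Ser p X Y) :
    Ser p ((X.comap π).map K.subtype) ((Y.comap π).map K.subtype) := by
  induction h with
  | refl => exact Relation.ReflTransGen.refl
  | tail _ h2 ih => exact Relation.ReflTransGen.tail ih (fac_pull K π h2)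

theorem nz_normal {G : Type} [Group G] {H K : Subgroup G} (h : Nz H K) :
    (H.subgroupOf K).Normal :=
  ⟨fun x hx g => by
    rw [Subgroup.mem_subgroupOf] at hx ⊢
    exact h g g.2 x hx⟩

/-- pulling back a series of the quotient group -/
theorem ser_of_quot {p : ℕ} {G : Type} [Group G] {H K : Subgroup G} (hle : H ≤ K)
    [(H.subgroupOf K).Normal] (h : Ser p (⊥ : Subgroup (K ⧸ H.subgroupOf K)) ⊤) : Ser p H K := by
  have h1 := ser_pull K (QuotientGroup.mk' (H.subgroupOf K)) h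
  rw [MonoidHom.comap_bot, QuotientGroup.ker_mk', Subgroup.comap_top, ← MonoidHom.range_eq_map,
    Subgroup.range_subtype, Subgroup.subgroupOf_map_subtype, inf_eq_left.mpr hle] at h1
  exact h1

/-- a cyclic step is a factor -/
theorem fac_cyc {p : ℕ} {G : Type} [Group G] {H K : Subgroup G} (hle : H ≤ K) (hn : Nz H K)
    {t : G} (ht : t ∈ K) (hK : K = H ⊔ Subgroup.zpowers t) : Fac p H K := by
  have := nz_normal hn
  have hg : ∀ x : K ⧸ H.subgroupOf K,
      x ∈ Subgroup.zpowers (QuotientGroup.mk' (H.subgroupOf K) ⟨t, ht⟩) := by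
    intro x
    obtain ⟨y, rfl⟩ := QuotientGroup.mk'_surjective _ x
    let L : Subgroup G := ((Subgroup.zpowers
      (QuotientGroup.mk' (H.subgroupOf K) ⟨t, ht⟩)).comap
        (QuotientGroup.mk' (H.subgroupOf K))).map K.subtype
    have hL : H ⊔ Subgroup.zpowers t ≤ L := by
      refine sup_le ?_ ?_
      · intro h hh
        refine ⟨⟨h, hle hh⟩, ?_, rfl⟩
        have : QuotientGroup.mk' (H.subgroupOf K) ⟨h, hle hh⟩ = 1 := by
          rw [QuotientGroup.mk'_apply, QuotientGroup.eq_one_iff, Subgroup.mem_subgroupOf]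
          exact hh
        change QuotientGroup.mk' (H.subgroupOf K) ⟨h, hle hh⟩ ∈
          Subgroup.zpowers (QuotientGroup.mk' (H.subgroupOf K) ⟨t, ht⟩)
        rw [this]
        exact Subgroup.one_mem _
      · rw [Subgroup.zpowers_le]
        exact ⟨⟨t, ht⟩, Subgroup.mem_zpowers _, rfl⟩
    obtain ⟨z, hz, hzy⟩ := hL (hK.le y.2)
    have : z = y := Subtype.ext hzy
    rw [← this]
    exact hz
  obtain ⟨ι, hι⟩ := cyc_emb _ _ hg
  refine ⟨hle, ι.comp (QuotientGroup.mk' _), ?_, Or.inl ?_⟩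
  · rw [MonoidHom.ker_comp_of_injective _ _ hι, QuotientGroup.ker_mk']
  · have : IsCyclic (K ⧸ H.subgroupOf K) := ⟨⟨_, hg⟩⟩
    have hle' : (ι.comp (QuotientGroup.mk' (H.subgroupOf K))).range ≤ ι.range := by
      rintro _ ⟨y, rfl⟩
      exact ⟨_, rfl⟩
    have : IsCyclic ι.range := isCyclic_of_surjective ι.rangeRestrict ι.rangeRestrict_surjective
    exact Subgroup.isCyclic_of_le hle'

theorem nz_of_comm {G : Type} [Group G] {H K L : Subgroup G} (hle : H ≤ K) (hL : L ≤ K)
    (hc : ∀ x ∈ K, ∀ y ∈ K, x * y * x⁻¹ * y⁻¹ ∈ H) : Nz H L := by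
  intro k hk h hh
  have := H.mul_mem (hc k (hL hk) h (hle hh)) hh
  simpa using this

theorem closure_insert_sup {G : Type} [Group G] [DecidableEq G] (t : G) (T : Finset G)
    (H : Subgroup G) : Subgroup.closure (↑(insert t T) : Set G) ⊔ H =
      Subgroup.closure (↑T : Set G) ⊔ (H ⊔ Subgroup.zpowers t) := by
  rw [Finset.coe_insert, Set.insert_eq, Subgroup.closure_union, Subgroup.zpowers_eq_closure]
  ac_rfl

theorem fgab {p : ℕ} {G : Type} [Group G] (K : Subgroup G) (T : Finset G) :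
    ∀ H : Subgroup G, H ≤ K → (∀ x ∈ K, ∀ y ∈ K, x * y * x⁻¹ * y⁻¹ ∈ H) →
      K = Subgroup.closure (↑T : Set G) ⊔ H → Ser p H K := by
  classical
  induction T using Finset.induction_on with
  | empty =>
    intro H _ _ hK
    rw [hK]
    simp only [Finset.coe_empty, Subgroup.closure_empty, bot_sup_eq]
    exact Relation.ReflTransGen.refl
  | insert t T _ ih =>
    intro H hle hc hK
    rw [closure_insert_sup] at hK
    have hle1 : H ⊔ Subgroup.zpowers t ≤ K := hK ▸ le_sup_right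
    refine Relation.ReflTransGen.head (b := H ⊔ Subgroup.zpowers t) ?_ ?_
    · exact fac_cyc le_sup_left (nz_of_comm hle hle1 hc)
        ((le_sup_right : Subgroup.zpowers t ≤ _) (Subgroup.mem_zpowers t)) rfl
    · exact ih _ hle1 (fun x hx y hy => (le_sup_left : H ≤ _) (hc x hx y hy)) hK

theorem fin_solv {p : ℕ} (Q : Type) [Group Q] [Finite Q] (hs : Group.IsSolvable Q) :
    Ser p (⊥ : Subgroup Q) ⊤ := by
  classical
  have h1 : ∀ d : ℕ, Ser p (derivedSeries Q d) ⊤ := by
    intro d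
    induction d with
    | zero => exact Relation.ReflTransGen.refl
    | succ d ih =>
      refine Relation.ReflTransGen.trans ?_ ih
      have hle : derivedSeries Q (d + 1) ≤ derivedSeries Q d := by
        rw [derivedSeries_succ]
        exact Subgroup.commutator_le_left _ _
      refine fgab (derivedSeries Q d) (Set.toFinite (derivedSeries Q d : Set Q)).toFinset _ hle
        ?_ ?_
      · intro x hx y hy
        rw [derivedSeries_succ]
        exact Subgroup.commutator_mem_commutator hx hy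
      · rw [Set.Finite.coe_toFinset, Subgroup.closure_eq, sup_eq_left.mpr hle]
  obtain ⟨n, hn⟩ := hs.solvable
  rw [← hn]
  exact h1 n

theorem sat_pow {p : ℕ} {A : Type} [Group A] {H : Subgroup A} (hH : ∀ x, x ^ p ∈ H → x ∈ H)
    (j : ℕ) : ∀ x : A, x ^ p ^ j ∈ H → x ∈ H := by
  induction j with
  | zero => intro x hx; simpa using hx
  | succ j ih =>
    intro x hx
    rw [pow_succ, pow_mul] at hx
    exact ih x (hH _ hx)

/-- the `p`-saturation of a subgroup of an abelian group -/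
def sat (p : ℕ) {A : Type} [CommGroup A] (H : Subgroup A) : Subgroup A where
  carrier := {x | ∃ j : ℕ, x ^ p ^ j ∈ H}
  one_mem' := ⟨0, by simp⟩
  mul_mem' := by
    rintro x y ⟨i, hi⟩ ⟨j, hj⟩
    refine ⟨i + j, ?_⟩
    rw [mul_pow]
    refine H.mul_mem ?_ ?_
    · rw [pow_add, pow_mul]
      exact H.pow_mem hi _
    · rw [add_comm, pow_add, pow_mul]
      exact H.pow_mem hj _
  inv_mem' := by
    rintro x ⟨j, hj⟩
    exact ⟨j, by rw [inv_pow]; exact H.inv_mem hj⟩

theorem mem_sup_zp {A : Type} [CommGroup A] {H : Subgroup A} {t x : A} :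
    x ∈ H ⊔ Subgroup.zpowers t ↔ ∃ a : ℤ, x * (t ^ a)⁻¹ ∈ H := by
  rw [Subgroup.mem_sup]
  constructor
  · rintro ⟨y, hy, z, hz, rfl⟩
    obtain ⟨a, rfl⟩ := Subgroup.mem_zpowers_iff.mp hz
    exact ⟨a, by simpa using hy⟩
  · rintro ⟨a, ha⟩
    exact ⟨_, ha, t ^ a, Subgroup.zpow_mem_zpowers t a, by simp⟩

theorem sat_tors {p : ℕ} [hp : Fact p.Prime] {A : Type} [CommGroup A] {H : Subgroup A}
    (hH : ∀ x, x ^ p ∈ H → x ∈ H) {t : A} {m : ℕ} (hm : 0 < m) (ht : t ^ m ∈ H) :
    sat p (H ⊔ Subgroup.zpowers t) = H ⊔ Subgroup.zpowers t := by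
  refine le_antisymm ?_ (fun x hx => ⟨0, by simpa using hx⟩)
  rintro x ⟨j, hj⟩
  obtain ⟨a, ha⟩ := mem_sup_zp.mp hj
  have h1 : (x ^ m) ^ p ^ j ∈ H := by
    have h2 := H.mul_mem (H.pow_mem ha m) (H.zpow_mem ht a)
    have h3 : (x ^ p ^ j * (t ^ a)⁻¹) ^ m * (t ^ m) ^ a = (x ^ m) ^ p ^ j := by
      rw [mul_pow, inv_pow, ← zpow_natCast (t ^ a) m, ← zpow_natCast t m, ← zpow_mul,
        ← zpow_mul, mul_comm a, inv_mul_cancel_right, ← pow_mul, ← pow_mul, mul_comm]
    rwa [h3] at h2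
  have h2 := sat_pow hH j _ h1
  obtain ⟨e, n, hn, rfl⟩ := Nat.exists_eq_pow_mul_and_not_dvd hm.ne' p hp.out.ne_one
  rw [mul_comm, pow_mul] at h2
  have h3 := sat_pow hH e _ h2
  have hcop : Nat.Coprime (p ^ j) n :=
    Nat.Coprime.pow_left j ((Nat.Prime.coprime_iff_not_dvd hp.out).mpr hn)
  have hb := Nat.gcd_eq_gcd_ab (p ^ j) n
  rw [hcop] at hb
  have h4 : x = (x ^ p ^ j) ^ (Nat.gcdA (p ^ j) n) * (x ^ n) ^ (Nat.gcdB (p ^ j) n) := by
    rw [← zpow_natCast x (p ^ j), ← zpow_natCast x n, ← zpow_mul, ← zpow_mul, ← zpow_add, ← hb]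
    simp
  rw [h4]
  exact Subgroup.mul_mem _ (Subgroup.zpow_mem _ hj _)
    (Subgroup.zpow_mem _ ((le_sup_left : H ≤ _) h3) _)

theorem sat_free {p : ℕ} [hp : Fact p.Prime] {A : Type} [CommGroup A] {H : Subgroup A}
    (hH : ∀ x, x ^ p ∈ H → x ∈ H) {t : A} (ht : ∀ m : ℕ, 0 < m → t ^ m ∉ H) :
    Fac p (H ⊔ Subgroup.zpowers t) (sat p (H ⊔ Subgroup.zpowers t)) := by
  have hp0 : (p : ℂ) ≠ 0 := by exact_mod_cast hp.out.ne_zero
  have htz : ∀ a : ℤ, t ^ a ∈ H → a = 0 := by
    intro a ha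
    by_contra h0
    refine ht a.natAbs (Int.natAbs_pos.mpr h0) ?_
    rcases Int.natAbs_eq a with h | h
    · rw [← zpow_natCast, ← h]
      exact ha
    · have := H.inv_mem ha
      rw [← zpow_neg, h, neg_neg, zpow_natCast] at this
      simpa using this
  let R : A → ℂ → Prop := fun x q => ∃ (j : ℕ) (a : ℤ), x ^ p ^ j * (t ^ a)⁻¹ ∈ H ∧
    q = a / (p : ℂ) ^ j
  have hup : ∀ (x : A) (j i : ℕ) (a : ℤ), x ^ p ^ j * (t ^ a)⁻¹ ∈ H →
      x ^ p ^ (j + i) * (t ^ (a * (p : ℤ) ^ i))⁻¹ ∈ H := by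
    intro x j i a h
    have h1 := H.pow_mem h (p ^ i)
    rw [mul_pow, inv_pow, ← pow_mul, ← pow_add, ← zpow_natCast (t ^ a), ← zpow_mul] at h1
    simpa using h1
  have huniq : ∀ x q q', R x q → R x q' → q = q' := by
    rintro x _ _ ⟨j, a, ha, rfl⟩ ⟨i, b, hb, rfl⟩
    have h1 := hup x j i a ha
    have h2 := hup x i j b hb
    rw [add_comm] at h2
    have h3 := H.mul_mem (H.inv_mem h1) h2
    have h4 : (x ^ p ^ (j + i) * (t ^ (a * (p : ℤ) ^ i))⁻¹)⁻¹ *
        (x ^ p ^ (j + i) * (t ^ (b * (p : ℤ) ^ j))⁻¹) =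
          t ^ (a * (p : ℤ) ^ i - b * (p : ℤ) ^ j) := by
      rw [zpow_sub, mul_inv_rev, inv_inv, mul_assoc, inv_mul_cancel_left]
    rw [h4] at h3
    have h5 := sub_eq_zero.mp (htz _ h3)
    have h6 : (a : ℂ) * (p : ℂ) ^ i = (b : ℂ) * (p : ℂ) ^ j := by exact_mod_cast h5
    rw [div_eq_div_iff (pow_ne_zero _ hp0) (pow_ne_zero _ hp0)]
    exact h6
  have hadd : ∀ x y q q', R x q → R y q' → R (x * y) (q + q') := by
    rintro x y _ _ ⟨j, a, ha, rfl⟩ ⟨i, b, hb, rfl⟩
    have h1 := hup x j i a ha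
    have h2 := hup y i j b hb
    rw [add_comm] at h2
    refine ⟨j + i, a * (p : ℤ) ^ i + b * (p : ℤ) ^ j, ?_, ?_⟩
    · have h3 := H.mul_mem h1 h2
      rw [mul_pow, zpow_add, mul_inv, mul_mul_mul_comm]
      exact h3
    · push_cast
      rw [pow_add]
      field_simp
  have hex : ∀ x : sat p (H ⊔ Subgroup.zpowers t), ∃ q, R x q := by
    rintro ⟨x, j, hj⟩
    obtain ⟨a, ha⟩ := mem_sup_zp.mp hj
    exact ⟨_, j, a, ha, rfl⟩
  choose ν hν using hex
  have hνadd : ∀ x y, ν (x * y) = ν x + ν y := fun x y =>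
    huniq _ _ _ (hν (x * y)) (hadd _ _ _ _ (hν x) (hν y))
  let f : sat p (H ⊔ Subgroup.zpowers t) →* ℂˣ := MonoidHom.mk'
    (fun x => Units.mk0 (Complex.exp (ν x * (2 * Real.pi * Complex.I))) (Complex.exp_ne_zero _))
    (fun x y => by
      ext
      simp only [Units.val_mk0, Units.val_mul]
      rw [hνadd, add_mul, Complex.exp_add])
  have hker : f.ker = (H ⊔ Subgroup.zpowers t).subgroupOf (sat p (H ⊔ Subgroup.zpowers t)) := by
    ext x
    have h1 : x ∈ f.ker ↔ Complex.exp (ν x * (2 * Real.pi * Complex.I)) = 1 := by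
      rw [MonoidHom.mem_ker, Units.ext_iff]
      rfl
    rw [h1, Complex.exp_eq_one_iff, Subgroup.mem_subgroupOf, mem_sup_zp]
    constructor
    · rintro ⟨n, hn⟩
      have h2 : ν x = n := mul_right_cancel₀ Complex.two_pi_I_ne_zero hn
      obtain ⟨j, a, ha, hq⟩ := hν x
      rw [h2, eq_div_iff (pow_ne_zero _ hp0)] at hq
      have h3 : n * (p : ℤ) ^ j = a := by exact_mod_cast hq
      refine ⟨n, sat_pow hH j _ ?_⟩
      rw [mul_pow, inv_pow, ← zpow_natCast (t ^ n), ← zpow_mul]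
      rw [← h3] at ha
      simpa using ha
    · rintro ⟨n, hn⟩
      refine ⟨n, ?_⟩
      rw [huniq _ _ _ (hν x) ⟨0, n, by simpa using hn, rfl⟩]
      simp
  refine ⟨fun x hx => ⟨0, by simpa using hx⟩, f, hker, Or.inr ?_⟩
  intro x
  obtain ⟨j, hj⟩ := x.2
  refine ⟨j, ?_⟩
  rw [← map_pow, ← MonoidHom.mem_ker, hker, Subgroup.mem_subgroupOf]
  exact hj

theorem ab_comm {p : ℕ} [hp : Fact p.Prime] {A : Type} [CommGroup A] (T : Finset A) :
    ∀ H : Subgroup A, (∀ x, x ^ p ∈ H → x ∈ H) →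
      (∀ x, ∃ j : ℕ, x ^ p ^ j ∈ Subgroup.closure (↑T : Set A) ⊔ H) → Ser p H ⊤ := by
  classical
  induction T using Finset.induction_on with
  | empty =>
    intro H hH hT
    have : H = ⊤ := by
      rw [eq_top_iff]
      intro x _
      obtain ⟨j, hj⟩ := hT x
      exact sat_pow hH j x (by simpa using hj)
    rw [this]
    exact Relation.ReflTransGen.refl
  | insert t T _ ih =>
    intro H hH hT
    have h1 : Fac p H (H ⊔ Subgroup.zpowers t) :=
      fac_cyc le_sup_left (fun k _ h hh => by simpa using hh)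
        ((le_sup_right : Subgroup.zpowers t ≤ _) (Subgroup.mem_zpowers t)) rfl
    have h2 : Ser p (H ⊔ Subgroup.zpowers t) (sat p (H ⊔ Subgroup.zpowers t)) := by
      by_cases ht : ∃ m : ℕ, 0 < m ∧ t ^ m ∈ H
      · obtain ⟨m, hm, ht⟩ := ht
        rw [sat_tors hH hm ht]
        exact Relation.ReflTransGen.refl
      · exact Relation.ReflTransGen.single (sat_free hH (fun m hm h => ht ⟨m, hm, h⟩))
    refine Relation.ReflTransGen.head h1 (Relation.ReflTransGen.trans h2 (ih _ ?_ ?_))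
    · rintro x ⟨j, hj⟩
      exact ⟨j + 1, by rw [pow_succ', pow_mul]; exact hj⟩
    · intro x
      obtain ⟨j, hj⟩ := hT x
      rw [closure_insert_sup] at hj
      have h3 : H ⊔ Subgroup.zpowers t ≤ sat p (H ⊔ Subgroup.zpowers t) :=
        fun y hy => ⟨0, by simpa using hy⟩
      have h4 := sup_le_sup_left h3 (Subgroup.closure (↑T : Set A))
      exact ⟨j, h4 hj⟩

theorem serB : SSerB := by
  intro p hp
  refine ⟨?_, ?_, ?_⟩
  · intro G _ H K hs hle hn hfin
    have := nz_normal hn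
    have : (H.subgroupOf K).FiniteIndex := ⟨hfin⟩
    exact ser_of_quot hle (fin_solv _ inferInstance)
  · intro G _ H K T hle hc hK
    exact fgab K T H hle hc hK
  · intro G _ H K T hle hc hsat hT hgen
    classical
    have := nz_normal (nz_of_comm hle le_rfl hc)
    have hcomm : ∀ a b : K ⧸ H.subgroupOf K, a * b = b * a := by
      intro a b
      obtain ⟨x, rfl⟩ := QuotientGroup.mk'_surjective _ a
      obtain ⟨y, rfl⟩ := QuotientGroup.mk'_surjective _ b
      have h1 : QuotientGroup.mk' (H.subgroupOf K) (x * y * x⁻¹ * y⁻¹) = 1 := by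
        rw [QuotientGroup.mk'_apply, QuotientGroup.eq_one_iff, Subgroup.mem_subgroupOf]
        exact hc x x.2 y y.2
      rw [map_mul, map_mul, map_mul, map_inv, map_inv, mul_inv_eq_one, mul_inv_eq_iff_eq_mul]
        at h1
      exact h1
    refine ser_of_quot hle ?_
    let : CommGroup (K ⧸ H.subgroupOf K) :=
      { (inferInstance : Group (K ⧸ H.subgroupOf K)) with mul_comm := hcomm }
    refine ab_comm (T.attach.image
      fun t => QuotientGroup.mk' (H.subgroupOf K) ⟨t.1, hT t.1 t.2⟩) ⊥ ?_ ?_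
    · intro a ha
      obtain ⟨x, rfl⟩ := QuotientGroup.mk'_surjective _ a
      rw [Subgroup.mem_bot] at ha ⊢
      rw [← map_pow] at ha
      rw [QuotientGroup.mk'_apply, QuotientGroup.eq_one_iff, Subgroup.mem_subgroupOf] at ha ⊢
      exact hsat x x.2 ha
    · intro a
      obtain ⟨x, rfl⟩ := QuotientGroup.mk'_surjective _ a
      obtain ⟨j, hj⟩ := hgen x x.2
      refine ⟨j, ?_⟩
      rw [sup_bot_eq, ← map_pow]
      set C := Subgroup.closure (↑(T.attach.image
        fun t => QuotientGroup.mk' (H.subgroupOf K) ⟨t.1, hT t.1 t.2⟩) :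
          Set (K ⧸ H.subgroupOf K)) with hC
      have hL : Subgroup.closure (↑T : Set G) ⊔ H ≤
          (C.comap (QuotientGroup.mk' (H.subgroupOf K))).map K.subtype := by
        refine sup_le ?_ ?_
        · rw [Subgroup.closure_le]
          intro t ht
          refine ⟨⟨t, hT t ht⟩, Subgroup.subset_closure ?_, rfl⟩
          exact Finset.mem_coe.mpr (Finset.mem_image.mpr ⟨⟨t, ht⟩, Finset.mem_attach _ _, rfl⟩)
        · intro h hh
          refine ⟨⟨h, hle hh⟩, ?_, rfl⟩
          have : QuotientGroup.mk' (H.subgroupOf K) ⟨h, hle hh⟩ = 1 := by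
            rw [QuotientGroup.mk'_apply, QuotientGroup.eq_one_iff, Subgroup.mem_subgroupOf]
            exact hh
          change QuotientGroup.mk' (H.subgroupOf K) ⟨h, hle hh⟩ ∈ C
          rw [this]
          exact C.one_mem
      obtain ⟨z, hz, hzx⟩ := hL hj
      have : z = x ^ p ^ j := Subtype.ext hzx
      rw [← this]
      exact hz

end Pool.Agent.MP_6a4325_al.H20
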